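import Pool.Agent.Helper53.Engel.Main

/-!
# An Engel structure on `T⁴` with exactly one closed leaf, which is non-degenerate

All definitions used in the statement are in `Pool/Agent/Helper53/Engel/Statement.lean`.

## The construction

Coordinates on `T⁴` are `(x, y, z, t)`. The even contact structure is the kernel of
`α = cos(2πφ) dx + sin(2πφ) dy + a dz + b dt` with `φ, a` functions of `(z, t)`, its characteristic
field is `W`, and the Engel structure is spanned by `W` and `X = cos Θ L₁ + λ sin Θ L₂`, where `Θ`
turns fast in the direction of `W` outside three small tori, on which `dα(L₁, [W, L₁]) > 0`.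

* In the slots `t ∈ [1/2, 1]`, `W` is the lift to the space of co-oriented lines (a contact
  Hamiltonian field) of a triangular vector field of `T²`, sheared by `(x, y) ↦ (x, y + β(x))`; its
  periodic orbits lie over the two zeros of the field and have four resp. two directions of `z`,
  exactly one orbit being free: the others are at `z ∈ {z₀ + 1/2, z₁, z₁ + 1/2}`.
* In the slots `t ∈ [0, 1/2]`, `W = ∂t` except in three plugs around the circles
  `{z = z₁, t = 1/8}`, `{z = z₁ + 1/2, t = 1/4}`, `{z = z₀ + 1/2, t = 3/8}` (times `T²`). In a plug,
  with scaled coordinates `(ξ, τ)` and `s = ξ² + τ²`, the `(z, t)` part of `W` is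
  `(-2 ξ τ f'(s), f(s) + 2 ξ² f'(s))`, `f(s) = (s - 1)/10` near `s ≤ 1`: by mirror symmetry all leaves that
  leave the plug do so where they entered it, the leaves through the centre are trapped, and the
  leaves in the disc `s < 1` move in the `(x, y)` directions by an amount which is not an integer vector
  for generic parameters; this destroys the three unwanted closed leaves and makes no new one.
-/

set_option autoImplicit false

namespace Pool.Agent.Results.MP_ac6cd3_gt.OneClosedLeaf

open Pool.Agent.Helper53.Engel

/-- There is an Engel structure on `T⁴` whose characteristic foliation has exactly one closed leaf,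
and this closed leaf is non-degenerate. -/
theorem result : ∃ D W : V4 → Submodule ℝ V4, IsEngel D ∧ IsCharacteristic D W ∧
    ∃ L, IsClosedLeaf W L ∧ (∀ L', IsClosedLeaf W L' → L' = L) ∧ IsNondegenerate W L :=
  main

end Pool.Agent.Results.MP_ac6cd3_gt.OneClosedLeaf
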